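import Pool.Agent.Lib.MP_1dedaf_gt.SC.Core

/-!
# MP_1dedaf_gt, SC: from the planar theorem to the base of the induction
-/

set_option autoImplicit false

open MeasureTheory Set Filter Topology
open scoped ENNReal NNReal

namespace Pool.Agent.Lib.MP_1dedaf_gt.SC

/-- The planar inequality. -/
def Planar : Prop := ∀ t : ℝ, 0 < t → t < 1 → ∀ K C : Set (E 2), Convex ℝ K → IsCompact K →
  (interior K).Nonempty → (∫ x in K, x) = 0 → Convex ℝ C → IsCompact C → (interior C).Nonempty →
  (∫ x in C, x) = 0 →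
  (volume K).toReal ^ (1 - t) * (volume C).toReal ^ t ≤ (volume (logC t K C)).toReal

lemma section_zero (K : Set (E (2 + 0))) (y : Fin 0 → ℝ) :
    {x : E 2 | WithLp.toLp 2 (Fin.append x.ofLp y) ∈ K} = K := by
  ext x
  have h3 : (Fin.append x.ofLp y : Fin (2 + 0) → ℝ) = x.ofLp := by
    funext i
    exact Fin.append_left x.ofLp _ i
  show WithLp.toLp 2 (Fin.append x.ofLp y) ∈ K ↔ x ∈ K
  rw [h3]

lemma int_nonempty {n : ℕ} {K : Set (E n)} (hc : Convex ℝ K) (hv : volume K ≠ 0) :
    (interior K).Nonempty := by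
  by_contra hcon
  rw [not_nonempty_iff_eq_empty] at hcon
  apply hv
  have h1 := hc.addHaar_frontier (volume : Measure (E n))
  refine measure_mono_null ?_ h1
  intro x hx
  refine ⟨subset_closure hx, ?_⟩
  rw [hcon]
  exact notMem_empty x

theorem base_of (h : Planar) : LogBM 0 := by
  intro t ht0 ht1 K C hK hC
  have hs0 : 0 < 1 - t := by linarith
  by_cases h1 : volume K = 0
  · rw [h1, ENNReal.zero_rpow_of_pos hs0, zero_mul]
    exact bot_le
  by_cases h2 : volume C = 0
  · rw [h2, ENNReal.zero_rpow_of_pos ht0, mul_zero]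
    exact bot_le
  have hKc := hK.cent (fun i => i.elim0)
  rw [section_zero] at hKc
  have hCc := hC.cent (fun i => i.elim0)
  rw [section_zero] at hCc
  have h3 := h t ht0 ht1 K C hK.conv hK.comp (int_nonempty hK.conv h1) hKc hC.conv hC.comp
    (int_nonempty hC.conv h2) hCc
  have hKf : volume K ≠ ∞ := hK.comp.measure_lt_top.ne
  have hCf : volume C ≠ ∞ := hC.comp.measure_lt_top.ne
  rw [ENNReal.toReal_rpow, ENNReal.toReal_rpow, ← ENNReal.toReal_mul] at h3
  have h4 : volume K ^ (1 - t) * volume C ^ t ≠ ∞ :=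
    ENNReal.mul_ne_top (ENNReal.rpow_ne_top_of_nonneg hs0.le hKf)
      (ENNReal.rpow_ne_top_of_nonneg ht0.le hCf)
  calc volume K ^ (1 - t) * volume C ^ t
      = ENNReal.ofReal (volume K ^ (1 - t) * volume C ^ t).toReal := (ENNReal.ofReal_toReal h4).symm
    _ ≤ ENNReal.ofReal (volume (logC t K C)).toReal := ENNReal.ofReal_le_ofReal h3
    _ ≤ volume (logC t K C) := ENNReal.ofReal_toReal_le

end Pool.Agent.Lib.MP_1dedaf_gt.SC
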