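import Pool.Agent.Lib.MP_1dedaf_gt.SC.Defs

/-!
# MP_1dedaf_gt, SC: the induction
-/

set_option autoImplicit false

open MeasureTheory Set Filter Topology
open scoped ENNReal NNReal

namespace Pool.Agent.Lib.MP_1dedaf_gt.SC

/-- Hölder for two terms. -/
lemma holder2 {t : ℝ} (ht0 : 0 < t) (ht1 : t < 1) {a b c d : ℝ} (ha : 0 ≤ a) (hb : 0 ≤ b)
    (hc : 0 ≤ c) (hd : 0 ≤ d) :
    a ^ (1 - t) * b ^ t + c ^ (1 - t) * d ^ t ≤ (a + c) ^ (1 - t) * (b + d) ^ t := by
  have hs0 : 0 < 1 - t := by linarith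
  rcases eq_or_lt_of_le (add_nonneg ha hc) with h0 | h0
  · have ha' : a = 0 := by linarith
    have hc' : c = 0 := by linarith
    rw [ha', hc', Real.zero_rpow hs0.ne']
    simp [Real.zero_rpow hs0.ne']
  rcases eq_or_lt_of_le (add_nonneg hb hd) with h1 | h1
  · have hb' : b = 0 := by linarith
    have hd' : d = 0 := by linarith
    rw [hb', hd', Real.zero_rpow ht0.ne']
    simp [Real.zero_rpow ht0.ne']
  have key : ∀ x y : ℝ, 0 ≤ x → 0 ≤ y → x ^ (1 - t) * y ^ t ≤
      ((1 - t) * (x / (a + c)) + t * (y / (b + d))) * ((a + c) ^ (1 - t) * (b + d) ^ t) := by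
    intro x y hx hy
    have h2 := Real.geom_mean_le_arith_mean2_weighted hs0.le ht0.le
      (div_nonneg hx h0.le) (div_nonneg hy h1.le) (by ring)
    have h3 : x ^ (1 - t) * y ^ t = ((x / (a + c)) ^ (1 - t) * (y / (b + d)) ^ t) *
        ((a + c) ^ (1 - t) * (b + d) ^ t) := by
      rw [Real.div_rpow hx h0.le, Real.div_rpow hy h1.le]
      have h4 : (a + c) ^ (1 - t) ≠ 0 := (Real.rpow_pos_of_pos h0 _).ne'
      have h5 : (b + d) ^ t ≠ 0 := (Real.rpow_pos_of_pos h1 _).ne'
      field_simp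
    rw [h3]
    gcongr
  have h2 := key a b ha hb
  have h3 := key c d hc hd
  have h4 : ((1 - t) * (a / (a + c)) + t * (b / (b + d))) * ((a + c) ^ (1 - t) * (b + d) ^ t) +
      ((1 - t) * (c / (a + c)) + t * (d / (b + d))) * ((a + c) ^ (1 - t) * (b + d) ^ t) =
      (a + c) ^ (1 - t) * (b + d) ^ t := by
    have h5 : ((1 - t) * (a / (a + c)) + t * (b / (b + d))) +
        ((1 - t) * (c / (a + c)) + t * (d / (b + d))) = 1 := by
      field_simp
      ring
    rw [← add_mul, h5, one_mul]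
  linarith

section supp

variable {n : ℕ} {K : Set (E n)}

lemma cont_inner (u : E n) : Continuous fun y : E n => (inner ℝ y u : ℝ) :=
  continuous_id.inner continuous_const

lemma le_supp (hK : IsCompact K) (u : E n) {y : E n} (hy : y ∈ K) : inner ℝ y u ≤ supp K u :=
  le_csSup (hK.image (cont_inner u)).bddAbove (mem_image_of_mem _ hy)

lemma supp_attained (hK : IsCompact K) (hne : K.Nonempty) (u : E n) :
    ∃ y ∈ K, inner ℝ y u = supp K u := by
  obtain ⟨y, hy, h1⟩ := hK.exists_isMaxOn hne (cont_inner u).continuousOn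
  refine ⟨y, hy, le_antisymm (le_supp hK u hy) ?_⟩
  apply csSup_le (hne.image _)
  rintro _ ⟨x, hx, rfl⟩
  exact h1 hx

lemma supp_nonneg (hK : IsCompact K) (h0 : (0 : E n) ∈ K) (u : E n) : 0 ≤ supp K u := by
  have := le_supp hK u h0
  simpa using this

lemma supp_smul (hK : IsCompact K) (hne : K.Nonempty) {r : ℝ} (hr : 0 ≤ r) (u : E n) :
    supp K (r • u) = r * supp K u := by
  apply le_antisymm
  · obtain ⟨y, hy, h1⟩ := supp_attained hK hne (r • u)
    rw [← h1, inner_smul_right]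
    exact mul_le_mul_of_nonneg_left (le_supp hK u hy) hr
  · obtain ⟨y, hy, h1⟩ := supp_attained hK hne u
    rw [← h1, ← inner_smul_right]
    exact le_supp hK _ hy

end supp

lemma rpow_hom {t : ℝ} {a b r : ℝ} (ha : 0 ≤ a) (hb : 0 ≤ b) (hr : 0 < r) :
    (r * a) ^ (1 - t) * (r * b) ^ t = r * (a ^ (1 - t) * b ^ t) := by
  rw [Real.mul_rpow hr.le ha, Real.mul_rpow hr.le hb]
  have : r ^ (1 - t) * r ^ t = r := by
    rw [← Real.rpow_add hr]
    simp
  calc r ^ (1 - t) * a ^ (1 - t) * (r ^ t * b ^ t)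
      = (r ^ (1 - t) * r ^ t) * (a ^ (1 - t) * b ^ t) := by ring
    _ = _ := by rw [this]

/-- The defining inequalities of the logarithmic combination for all vectors. -/
lemma logC_all {n : ℕ} {t : ℝ} {K C : Set (E n)} (hK : IsCompact K) (hC : IsCompact C)
    (h0 : (0 : E n) ∈ K) (h0' : (0 : E n) ∈ C) {x : E n} (hx : x ∈ logC t K C) (u : E n) :
    inner ℝ x u ≤ (supp K u) ^ (1 - t) * (supp C u) ^ t := by
  rcases eq_or_ne u 0 with rfl | hu
  · rw [inner_zero_right]
    have h1 := supp_nonneg hK h0 0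
    have h2 := supp_nonneg hC h0' 0
    positivity
  have hr : 0 < ‖u‖ := norm_pos_iff.2 hu
  have h1 : ‖(‖u‖⁻¹ • u)‖ = 1 := by
    rw [norm_smul, norm_inv, norm_norm, inv_mul_cancel₀ hr.ne']
  have h2 := hx _ h1
  have h3 : u = ‖u‖ • (‖u‖⁻¹ • u) := by
    rw [smul_smul, mul_inv_cancel₀ hr.ne', one_smul]
  set v := ‖u‖⁻¹ • u with hv
  rw [h3, inner_smul_right, supp_smul hK ⟨0, h0⟩ hr.le, supp_smul hC ⟨0, h0'⟩ hr.le,
    rpow_hom (supp_nonneg hK h0 v) (supp_nonneg hC h0' v) hr]
  exact mul_le_mul_of_nonneg_left h2 hr.le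

lemma isClosed_logC {n : ℕ} (t : ℝ) (K C : Set (E n)) : IsClosed (logC t K C) := by
  have h1 : logC t K C = ⋂ u : E n, ⋂ _ : ‖u‖ = 1,
      {x | inner ℝ x u ≤ (supp K u) ^ (1 - t) * (supp C u) ^ t} := by
    ext x
    simp [logC]
  rw [h1]
  apply isClosed_iInter
  intro u
  apply isClosed_iInter
  intro _
  exact isClosed_le (cont_inner u) continuous_const

/-- A body of positive volume of the class contains the origin. -/
lemma zero_mem (k : ℕ) : ∀ (K : Set (E (2 + k))), Good k K → volume K ≠ 0 → (0 : E (2 + k)) ∈ K := by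
  induction k with
  | zero =>
    intro K hK hv
    have h1 := hK.cent (fun i => i.elim0)
    have h2 : {x : E 2 | WithLp.toLp 2 (Fin.append x.ofLp (fun i : Fin 0 => (i.elim0 : ℝ))) ∈ K} =
        K := by
      ext x
      have h3 : (Fin.append x.ofLp (fun i : Fin 0 => (i.elim0 : ℝ)) : Fin (2 + 0) → ℝ) = x.ofLp := by
        funext i
        exact Fin.append_left x.ofLp _ i
      show WithLp.toLp 2 (Fin.append x.ofLp (fun i : Fin 0 => (i.elim0 : ℝ))) ∈ K ↔ x ∈ K
      rw [h3]
    rw [h2] at h1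
    have hK2 : IsCompact (K : Set (E 2)) := hK.comp
    have h4 := Convex.set_average_mem (μ := (volume : Measure (E 2))) (t := (K : Set (E 2)))
      (f := fun x => x) (s := (K : Set (E 2))) hK.conv hK2.isClosed hv hK2.measure_lt_top.ne
      (ae_restrict_mem hK2.measurableSet) (continuous_id.continuousOn.integrableOn_compact hK2)
    rw [setAverage_eq, h1, smul_zero] at h4
    exact h4
  | succ k ih =>
    intro K hK hv
    rw [vol_slice K hK.comp.measurableSet] at hv
    obtain ⟨z, hz⟩ : ∃ z, volume (slice K z) ≠ 0 := by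
      by_contra hcon
      push Not at hcon
      exact hv (by simp [hcon])
    have h1 := ih _ (hK.slice z) hz
    have h2 : ext (0 : E (2 + k)) z ∈ K := h1
    have h3 := hK.mirror h2
    have h4 := hK.conv h2 h3 (by norm_num : (0 : ℝ) ≤ 1 / 2) (by norm_num : (0 : ℝ) ≤ 1 / 2)
      (by norm_num)
    rw [ext_comb] at h4
    have h5 : ext ((1 / 2 : ℝ) • (0 : E (2 + k)) + (1 / 2 : ℝ) • (0 : E (2 + k)))
        (1 / 2 * z + 1 / 2 * -z) = 0 := by
      ext i
      refine Fin.lastCases ?_ (fun c => ?_) i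
      · rw [ext_last]
        simp
      · rw [ext_castSucc]
        simp
    rwa [h5] at h4

/-- Support function of a body and of its slice. -/
lemma supp_slice {k : ℕ} {K : Set (E (2 + (k + 1)))} (hK : Good (k + 1) K) {z : ℝ} (_ : 0 ≤ z)
    (hne : (slice K z).Nonempty) (u : E (2 + (k + 1))) :
    supp (slice K z) (ini u) + z * |u (Fin.last (2 + k))| ≤ supp K u := by
  obtain ⟨y, hy, h1⟩ := supp_attained (hK.slice z).comp hne (ini u)
  rcases le_or_gt 0 (u (Fin.last (2 + k))) with h | h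
  · rw [abs_of_nonneg h, ← h1, ← inner_ext]
    exact le_supp hK.comp u hy
  · rw [abs_of_neg h, ← h1]
    have h2 : ext y (-z) ∈ K := hK.mirror hy
    have h3 := le_supp hK.comp u h2
    rw [inner_ext] at h3
    linarith

/-- The combination of the slices lies in the slices of the combination. -/
lemma slice_logC {k : ℕ} {t : ℝ} (ht0 : 0 < t) (ht1 : t < 1) {K C : Set (E (2 + (k + 1)))}
    (hK : Good (k + 1) K) (hC : Good (k + 1) C) {z w : ℝ} (hz : 0 < z) (hw : 0 < w)
    (hKz : volume (slice K z) ≠ 0) (hCw : volume (slice C w) ≠ 0) {s : ℝ}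
    (hs : |s| = z ^ (1 - t) * w ^ t) :
    logC t (slice K z) (slice C w) ⊆ slice (logC t K C) s := by
  intro x hx
  have h0 := zero_mem k _ (hK.slice z) hKz
  have h0' := zero_mem k _ (hC.slice w) hCw
  intro u hu
  rw [inner_ext]
  have h1 := logC_all (hK.slice z).comp (hC.slice w).comp h0 h0' hx (ini u)
  have h2 : s * u (Fin.last (2 + k)) ≤
      (z * |u (Fin.last (2 + k))|) ^ (1 - t) * (w * |u (Fin.last (2 + k))|) ^ t := by
    rcases eq_or_lt_of_le (abs_nonneg (u (Fin.last (2 + k)))) with h3 | h3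
    · rw [abs_eq_zero.1 h3.symm, mul_zero]
      positivity
    · rw [mul_comm z, mul_comm w, rpow_hom hz.le hw.le h3, ← hs, mul_comm, ← abs_mul]
      exact le_abs_self _
  have h3 := supp_slice hK hz.le ⟨0, h0⟩ u
  have h4 := supp_slice hC hw.le ⟨0, h0'⟩ u
  have h5 := supp_nonneg (hK.slice z).comp h0 (ini u)
  have h6 := supp_nonneg (hC.slice w).comp h0' (ini u)
  have h7 := holder2 ht0 ht1 h5 h6 (c := z * |u (Fin.last (2 + k))|)
    (d := w * |u (Fin.last (2 + k))|) (by positivity) (by positivity)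
  calc inner ℝ x (ini u) + s * u (Fin.last (2 + k))
      ≤ supp (slice K z) (ini u) ^ (1 - t) * supp (slice C w) (ini u) ^ t +
        (z * |u (Fin.last (2 + k))|) ^ (1 - t) * (w * |u (Fin.last (2 + k))|) ^ t :=
        add_le_add h1 h2
    _ ≤ _ := h7
    _ ≤ supp K u ^ (1 - t) * supp C u ^ t := by
        have h8 : 0 < 1 - t := by linarith
        have h9 : 0 ≤ z * |u (Fin.last (2 + k))| := by positivity
        have h10 : 0 ≤ w * |u (Fin.last (2 + k))| := by positivity
        have h11 : 0 ≤ supp K u := by linarith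
        have h12 : 0 ≤ supp C u := by linarith
        gcongr

/-- Splitting an integral over the line. -/
lemma lint_split (φ : ℝ → ℝ≥0∞) :
    ∫⁻ z, φ z = (∫⁻ z in Ioi (0 : ℝ), φ z) + ∫⁻ z in Ioi (0 : ℝ), φ (-z) := by
  have h1 := lintegral_add_compl (μ := volume) φ (measurableSet_Ioi (a := (0 : ℝ)))
  rw [← h1]
  congr 1
  have h2 : (Ioi (0 : ℝ))ᶜ = Iic 0 := by
    ext x
    simp
  rw [h2, setLIntegral_congr (Iio_ae_eq_Iic (μ := volume) (a := (0 : ℝ))).symm]
  have h3 := (Measure.measurePreserving_neg (volume : Measure ℝ)).setLIntegral_comp_preimage_emb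
    (MeasurableEquiv.neg ℝ).measurableEmbedding φ (Iio 0)
  rw [← h3]
  congr 2
  ext x
  simp

/-- The inequality for the class with `k` mirrors. -/
def LogBM (k : ℕ) : Prop := ∀ t : ℝ, 0 < t → t < 1 → ∀ K C : Set (E (2 + k)), Good k K → Good k C →
  volume K ^ (1 - t) * volume C ^ t ≤ volume (logC t K C)

/-- **The step**. -/
theorem step {k : ℕ} (h : LogBM k) : LogBM (k + 1) := by
  intro t ht0 ht1 K C hK hC
  have hs0 : 0 < 1 - t := by linarith
  have hW := (isClosed_logC t K C).measurableSet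
  have hKm := hK.comp.measurableSet
  have hCm := hC.comp.measurableSet
  have key : ∀ (ε : ℝ), |ε| = 1 → ∀ x y : ℝ, 0 < x → 0 < y →
      volume (slice K x) ^ (1 - t) * volume (slice C y) ^ t ≤
        volume (slice (logC t K C) (ε * (x ^ (1 - t) * y ^ t))) := by
    intro ε hε x y hx hy
    by_cases h1 : volume (slice K x) = 0
    · rw [h1, ENNReal.zero_rpow_of_pos hs0, zero_mul]
      exact bot_le
    by_cases h2 : volume (slice C y) = 0
    · rw [h2, ENNReal.zero_rpow_of_pos ht0, mul_zero]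
      exact bot_le
    refine (h t ht0 ht1 _ _ (hK.slice x) (hC.slice y)).trans (measure_mono ?_)
    apply slice_logC ht0 ht1 hK hC hx hy h1 h2
    rw [abs_mul, hε, one_mul, abs_of_nonneg (by positivity)]
  have hmW := meas_slice _ hW
  have p1 := pl_mul ht0 ht1 (meas_slice K hKm) (meas_slice C hCm) hmW (by
    intro x y hx hy
    have := key 1 (by simp) x y hx hy
    rwa [one_mul] at this)
  have p2 := pl_mul ht0 ht1 (meas_slice K hKm) (meas_slice C hCm) (hmW.comp measurable_neg) (by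
    intro x y hx hy
    have := key (-1) (by simp) x y hx hy
    rwa [neg_one_mul] at this)
  have e1 : ∀ K : Set (E (2 + (k + 1))), Good (k + 1) K →
      volume K = 2 * ∫⁻ z in Ioi (0 : ℝ), volume (slice K z) := by
    intro K hK
    rw [vol_slice K hK.comp.measurableSet, lint_split, two_mul]
    congr 1
    apply lintegral_congr
    intro z
    congr 1
    ext x
    constructor
    · intro hx
      have := hK.mirror hx
      rwa [neg_neg] at this
    · intro hx
      exact hK.mirror hx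
  rw [e1 K hK, e1 C hC, vol_slice _ hW, lint_split, ENNReal.mul_rpow_of_nonneg _ _ hs0.le,
    ENNReal.mul_rpow_of_nonneg _ _ ht0.le]
  have h2 : (2 : ℝ≥0∞) ^ (1 - t) * 2 ^ t = 2 := by
    rw [← ENNReal.rpow_add _ _ (by norm_num) (by norm_num)]
    simp
  calc (2 : ℝ≥0∞) ^ (1 - t) * (∫⁻ z in Ioi (0 : ℝ), volume (slice K z)) ^ (1 - t) *
        (2 ^ t * (∫⁻ z in Ioi (0 : ℝ), volume (slice C z)) ^ t)
      = (2 ^ (1 - t) * 2 ^ t) * ((∫⁻ z in Ioi (0 : ℝ), volume (slice K z)) ^ (1 - t) *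
        (∫⁻ z in Ioi (0 : ℝ), volume (slice C z)) ^ t) := by ring
    _ = ((∫⁻ z in Ioi (0 : ℝ), volume (slice K z)) ^ (1 - t) *
        (∫⁻ z in Ioi (0 : ℝ), volume (slice C z)) ^ t) +
        ((∫⁻ z in Ioi (0 : ℝ), volume (slice K z)) ^ (1 - t) *
        (∫⁻ z in Ioi (0 : ℝ), volume (slice C z)) ^ t) := by rw [h2, two_mul]
    _ ≤ _ := add_le_add p1 p2

theorem all_k (h : LogBM 0) : ∀ k, LogBM k := by
  intro k
  induction k with
  | zero => exact h
  | succ k ih => exact step ih

end Pool.Agent.Lib.MP_1dedaf_gt.SC
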