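import Pool.Agent.Lib.MP_1dedaf_gt.SC.Core

/-!
# MP_1dedaf_gt, SC: linear involutions of space
-/

set_option autoImplicit false

open MeasureTheory Set Filter Topology
open scoped ENNReal NNReal

namespace Pool.Agent.Lib.MP_1dedaf_gt.SC

private theorem inv_aux {R : E 3 →L[ℝ] E 3} {a : E 3} (ha : a ≠ 0) (haR : R a = -a)
    (h : ∀ x, ∃ c : ℝ, x - R x = c • a) :
    ∃ u : E 3, inner ℝ u a = 2 ∧ ∀ x, R x = x - (inner ℝ u x : ℝ) • a := by
  have hn : (‖a‖ ^ 2 : ℝ) ≠ 0 := pow_ne_zero 2 (norm_ne_zero_iff.mpr ha)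
  have key : ∀ x, inner ℝ ((‖a‖ ^ 2)⁻¹ • (a - R.adjoint a)) x = (‖a‖ ^ 2)⁻¹ * inner ℝ a (x - R x) := by
    intro x
    rw [real_inner_smul_left, inner_sub_left, ContinuousLinearMap.adjoint_inner_left, ← inner_sub_right]
  have hu : ∀ x, x - R x = (inner ℝ ((‖a‖ ^ 2)⁻¹ • (a - R.adjoint a)) x : ℝ) • a := by
    intro x
    obtain ⟨c, hc⟩ := h x
    rw [key x, hc, real_inner_smul_right, real_inner_self_eq_norm_sq]
    congr 1
    field_simp
  refine ⟨(‖a‖ ^ 2)⁻¹ • (a - R.adjoint a), ?_, fun x => ?_⟩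
  · rw [key a, haR, sub_neg_eq_add, ← two_smul ℝ a, real_inner_smul_right, real_inner_self_eq_norm_sq]
    field_simp
  · rw [← hu x]
    abel

/-- A linear involution of space other than `1` and `-1` is a reflection or the negative of one. -/
theorem inv_form {R : E 3 →L[ℝ] E 3} (h2 : ∀ x, R (R x) = x) (h1 : ∃ x, R x ≠ x)
    (h3 : ∃ x, R x ≠ -x) :
    ∃ a u : E 3, inner ℝ u a = 2 ∧
      ((∀ x, R x = x - (inner ℝ u x : ℝ) • a) ∨ (∀ x, R x = -(x - (inner ℝ u x : ℝ) • a))) := by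
  -- the two eigenspaces
  let Wp : Submodule ℝ (E 3) := LinearMap.ker ((R : E 3 →ₗ[ℝ] E 3) - LinearMap.id)
  let Wm : Submodule ℝ (E 3) := LinearMap.ker ((R : E 3 →ₗ[ℝ] E 3) + LinearMap.id)
  have hp : ∀ x, x ∈ Wp ↔ R x = x := by
    intro x
    rw [LinearMap.mem_ker]
    simp [sub_eq_zero]
  have hm : ∀ x, x ∈ Wm ↔ R x = -x := by
    intro x
    rw [LinearMap.mem_ker]
    simp [add_eq_zero_iff_eq_neg]
  have hpx : ∀ x, x + R x ∈ Wp := by
    intro x
    rw [hp, map_add, h2]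
    abel
  have hmx : ∀ x, x - R x ∈ Wm := by
    intro x
    rw [hm, map_sub, h2]
    abel
  have hinf : Wp ⊓ Wm = ⊥ := by
    rw [Submodule.eq_bot_iff]
    rintro x ⟨hx1, hx2⟩
    have e1 := (hp x).mp hx1
    have e2 := (hm x).mp hx2
    rw [e1] at e2
    have e3 : (2 : ℝ) • x = 0 := by
      rw [two_smul]
      nth_rewrite 1 [e2]
      abel
    exact (smul_eq_zero.mp e3).resolve_left two_ne_zero
  have hp0 : Wp ≠ ⊥ := by
    intro hb
    obtain ⟨x, hx⟩ := h3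
    have h4 := hpx x
    rw [hb, Submodule.mem_bot] at h4
    exact hx (eq_neg_of_add_eq_zero_right h4)
  have hm0 : Wm ≠ ⊥ := by
    intro hb
    obtain ⟨x, hx⟩ := h1
    have h4 := hmx x
    rw [hb, Submodule.mem_bot] at h4
    exact hx (sub_eq_zero.mp h4).symm
  have hfin : Module.finrank ℝ Wp + Module.finrank ℝ Wm ≤ 3 := by
    have h4 := Submodule.finrank_sup_add_finrank_inf_eq Wp Wm
    rw [hinf, finrank_bot, add_zero] at h4
    rw [← h4]
    refine (Submodule.finrank_le _).trans ?_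
    simp [E]
  have hpp : 0 < Module.finrank ℝ Wp := by
    rw [Nat.pos_iff_ne_zero]
    intro h4
    exact hp0 (Submodule.finrank_eq_zero.mp h4)
  have hmp : 0 < Module.finrank ℝ Wm := by
    rw [Nat.pos_iff_ne_zero]
    intro h4
    exact hm0 (Submodule.finrank_eq_zero.mp h4)
  have hcase : Module.finrank ℝ Wm = 1 ∨ Module.finrank ℝ Wp = 1 := by omega
  rcases hcase with h | h
  · obtain ⟨⟨a, haW⟩, ha0, ha⟩ := finrank_eq_one_iff'.mp h
    have ha0' : a ≠ 0 := fun h5 => ha0 (Subtype.ext h5)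
    obtain ⟨u, hu, hR⟩ := inv_aux (R := R) ha0' ((hm a).mp haW) (by
      intro x
      obtain ⟨c, hc⟩ := ha ⟨x - R x, hmx x⟩
      exact ⟨c, (congrArg Subtype.val hc).symm⟩)
    exact ⟨a, u, hu, Or.inl hR⟩
  · obtain ⟨⟨a, haW⟩, ha0, ha⟩ := finrank_eq_one_iff'.mp h
    have ha0' : a ≠ 0 := fun h5 => ha0 (Subtype.ext h5)
    obtain ⟨u, hu, hR⟩ := inv_aux (R := -R) ha0' (by
      rw [neg_apply, (hp a).mp haW]) (by
      intro x
      obtain ⟨c, hc⟩ := ha ⟨x + R x, hpx x⟩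
      refine ⟨c, ?_⟩
      rw [neg_apply, sub_neg_eq_add]
      exact (congrArg Subtype.val hc).symm)
    refine ⟨a, u, hu, Or.inr fun x => ?_⟩
    rw [← hR x, neg_apply, neg_neg]

end Pool.Agent.Lib.MP_1dedaf_gt.SC
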