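import Pool.Agent.Lib.MP_1dedaf_gt.SC.Base0
import Pool.Agent.Lib.MP_1dedaf_gt.LB.F2
import Pool.Agent.Lib.MP_1dedaf_gt.DK.EP.FIN

/-!
# MP_1dedaf_gt, SC: the planar case
-/

set_option autoImplicit false

open MeasureTheory

namespace Pool.Agent.Lib.MP_1dedaf_gt.SC

theorem planar : Planar := by
  intro t ht0 ht1 K C hc hK hi h0 hc' hC hi' h0'
  exact (Pool.Agent.Lib.MP_1dedaf_gt.LB.planar_result Pool.Agent.Lib.MP_1dedaf_gt.DK.ker ht0 ht1
    hc hK hi h0 hc' hC hi' h0').1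

theorem base : LogBM 0 := base_of planar

end Pool.Agent.Lib.MP_1dedaf_gt.SC
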