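import Pool.Agent.Lib.MP_1dedaf_gt.SC.Core
set_option autoImplicit false
open MeasureTheory Set Filter Topology
open scoped ENNReal NNReal
namespace Pool.Agent.Lib.MP_1dedaf_gt.SC
theorem logC_bdd {n : ℕ} {t : ℝ} (ht0 : 0 < t) (ht1 : t < 1) {K C : Set (E n)}
    (hK : IsCompact K) (hC : IsCompact C) (h0 : (0 : E n) ∈ K) (h0' : (0 : E n) ∈ C) :
    Bornology.IsBounded (logC t K C) := by
  have hs0 : 0 < 1 - t := by linarith
  set M : ℝ := (∑ i : Fin n, (supp K (EuclideanSpace.single i 1) ^ (1 - t) *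
    supp C (EuclideanSpace.single i 1) ^ t + supp K (-EuclideanSpace.single i 1) ^ (1 - t) *
    supp C (-EuclideanSpace.single i 1) ^ t)) with hM
  have hnn : ∀ u : E n, 0 ≤ supp K u ^ (1 - t) * supp C u ^ t := by
    intro u
    have h1 := supp_nonneg hK h0 u
    have h2 := supp_nonneg hC h0' u
    positivity
  have hle : ∀ i : Fin n, supp K (EuclideanSpace.single i 1) ^ (1 - t) *
      supp C (EuclideanSpace.single i 1) ^ t + supp K (-EuclideanSpace.single i 1) ^ (1 - t) *
      supp C (-EuclideanSpace.single i 1) ^ t ≤ M := by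
    intro i
    exact Finset.single_le_sum (f := fun i : Fin n => supp K (EuclideanSpace.single i 1) ^ (1 - t) *
      supp C (EuclideanSpace.single i 1) ^ t + supp K (-EuclideanSpace.single i 1) ^ (1 - t) *
      supp C (-EuclideanSpace.single i 1) ^ t) (fun j _ => add_nonneg (hnn _) (hnn _))
      (Finset.mem_univ i)
  rw [isBounded_iff_forall_norm_le]
  refine ⟨Real.sqrt (∑ _i : Fin n, M ^ 2), ?_⟩
  intro x hx
  rw [EuclideanSpace.norm_eq]
  apply Real.sqrt_le_sqrt
  apply Finset.sum_le_sum
  intro i _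
  have h1 := logC_all hK hC h0 h0' hx (EuclideanSpace.single i 1)
  have h2 := logC_all hK hC h0 h0' hx (-EuclideanSpace.single i 1)
  rw [inner_neg_right] at h2
  have h3 : inner ℝ x (EuclideanSpace.single i (1 : ℝ)) = x i := by
    rw [EuclideanSpace.inner_single_right]
    simp
  rw [h3] at h1 h2
  have h4 := hle i
  have h5 := hnn (EuclideanSpace.single i 1)
  have h6 := hnn (-EuclideanSpace.single i 1)
  have h7 : ‖x i‖ ≤ M := by
    rw [Real.norm_eq_abs, abs_le]
    constructor <;> linarith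
  exact pow_le_pow_left₀ (norm_nonneg _) h7 2
end Pool.Agent.Lib.MP_1dedaf_gt.SC
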