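import Pool.Agent.Lib.MP_1dedaf_gt.SC.PLt

/-!
# MP_1dedaf_gt, SC: bodies with mirrors and centered planar sections
-/

set_option autoImplicit false

open MeasureTheory Set Filter Topology
open scoped ENNReal NNReal

namespace Pool.Agent.Lib.MP_1dedaf_gt.SC

/-- Euclidean space. -/
abbrev E (n : ℕ) := EuclideanSpace ℝ (Fin n)

/-- The support function. -/
noncomputable def supp {n : ℕ} (K : Set (E n)) (u : E n) : ℝ :=
  sSup ((fun y => inner ℝ y u) '' K)

/-- The logarithmic combination. -/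
def logC {n : ℕ} (t : ℝ) (K C : Set (E n)) : Set (E n) :=
  {x | ∀ u : E n, ‖u‖ = 1 → inner ℝ x u ≤ (supp K u) ^ (1 - t) * (supp C u) ^ t}

/-- The class of bodies. -/
structure Good (k : ℕ) (K : Set (E (2 + k))) : Prop where
  conv : Convex ℝ K
  comp : IsCompact K
  refl : ∀ x ∈ K, ∀ j : Fin k,
    WithLp.toLp 2 (Function.update x.ofLp (Fin.natAdd 2 j) (-(x (Fin.natAdd 2 j)))) ∈ K
  cent : ∀ y : Fin k → ℝ, ∫ x in {x : E 2 | WithLp.toLp 2 (Fin.append x.ofLp y) ∈ K}, x = 0

/-- The point `(x, z)`. -/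
noncomputable def ext {n : ℕ} (x : E n) (z : ℝ) : E (n + 1) :=
  WithLp.toLp 2 (Fin.snoc (α := fun _ => ℝ) x.ofLp z)

/-- The slice at height `z`. -/
def slice {n : ℕ} (K : Set (E (n + 1))) (z : ℝ) : Set (E n) := {x | ext x z ∈ K}

/-- The projection forgetting the last coordinate. -/
noncomputable def ini {n : ℕ} (x : E (n + 1)) : E n :=
  WithLp.toLp 2 (Fin.init (α := fun _ => ℝ) x.ofLp)

@[simp] lemma ext_castSucc {n : ℕ} (x : E n) (z : ℝ) (i : Fin n) : ext x z i.castSucc = x i := by
  simp [ext]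

@[simp] lemma ext_last {n : ℕ} (x : E n) (z : ℝ) : ext x z (Fin.last n) = z := by
  simp [ext]

@[simp] lemma ini_apply {n : ℕ} (x : E (n + 1)) (i : Fin n) : ini x i = x i.castSucc := by
  simp [ini, Fin.init]

lemma ext_ini {n : ℕ} (x : E (n + 1)) : ext (ini x) (x (Fin.last n)) = x := by
  ext i
  refine Fin.lastCases ?_ (fun j => ?_) i
  · simp
  · simp

lemma ini_ext {n : ℕ} (x : E n) (z : ℝ) : ini (ext x z) = x := by
  ext i
  simp

lemma ext_comb {n : ℕ} (x y : E n) (z w a b : ℝ) :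
    a • ext x z + b • ext y w = ext (a • x + b • y) (a * z + b * w) := by
  ext i
  refine Fin.lastCases ?_ (fun j => ?_) i
  · simp
  · simp

lemma inner_eq {n : ℕ} (x u : E n) : inner ℝ x u = ∑ i, x i * u i := by
  rw [PiLp.inner_apply]
  apply Finset.sum_congr rfl
  intro i _
  simp [mul_comm]

lemma inner_ext {n : ℕ} (x : E n) (z : ℝ) (u : E (n + 1)) :
    inner ℝ (ext x z) u = inner ℝ x (ini u) + z * u (Fin.last n) := by
  rw [inner_eq, inner_eq, Fin.sum_univ_castSucc]
  simp

lemma cont_ini {n : ℕ} : Continuous (ini : E (n + 1) → E n) := by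
  unfold ini
  apply (PiLp.continuous_toLp 2 _).comp
  apply continuous_pi
  intro i
  simp only [Fin.init]
  exact (continuous_apply i.castSucc).comp (PiLp.continuous_ofLp 2 _)

lemma cont_ext {n : ℕ} (z : ℝ) : Continuous (fun x : E n => ext x z) := by
  unfold ext
  apply (PiLp.continuous_toLp 2 _).comp
  apply continuous_pi
  intro i
  refine Fin.lastCases ?_ (fun j => ?_) i
  · simp only [Fin.snoc_last]
    exact continuous_const
  · simp only [Fin.snoc_castSucc]
    exact (continuous_apply j).comp (PiLp.continuous_ofLp 2 _)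

lemma slice_compact {n : ℕ} {K : Set (E (n + 1))} (hK : IsCompact K) (z : ℝ) :
    IsCompact (slice K z) := by
  have h1 : IsCompact (K ∩ {x | x (Fin.last n) = z}) := by
    apply hK.inter_right
    apply isClosed_eq _ continuous_const
    exact (continuous_apply (Fin.last n)).comp (PiLp.continuous_ofLp 2 _)
  have h2 : slice K z = ini '' (K ∩ {x | x (Fin.last n) = z}) := by
    ext x
    constructor
    · intro hx
      exact ⟨ext x z, ⟨hx, by simp⟩, ini_ext x z⟩
    · rintro ⟨y, ⟨hy, hyz⟩, rfl⟩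
      have hyz' : y (Fin.last n) = z := hyz
      show ext (ini y) z ∈ K
      rw [← hyz', ext_ini]
      exact hy
  rw [h2]
  exact h1.image cont_ini

lemma slice_convex {n : ℕ} {K : Set (E (n + 1))} (hK : Convex ℝ K) (z : ℝ) :
    Convex ℝ (slice K z) := by
  intro x hx y hy a b ha hb hab
  show ext (a • x + b • y) z ∈ K
  have h1 := hK hx hy ha hb hab
  rw [ext_comb] at h1
  have h2 : a * z + b * z = z := by rw [← add_mul, hab, one_mul]
  rwa [h2] at h1

lemma append_snoc' {k : ℕ} (x : Fin 2 → ℝ) (y : Fin k → ℝ) (z : ℝ) :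
    (Fin.append x (Fin.snoc (α := fun _ => ℝ) y z) : Fin (2 + (k + 1)) → ℝ) =
      (Fin.snoc (α := fun _ => ℝ) (Fin.append x y) z : Fin ((2 + k) + 1) → ℝ) := by
  funext i
  refine Fin.addCases (m := 2) (n := k + 1) (fun a => ?_) (fun b => ?_) i
  · rw [Fin.append_left]
    have h1 : (Fin.castAdd (k + 1) a : Fin (2 + (k + 1))) = Fin.castSucc (Fin.castAdd k a) := rfl
    rw [h1, Fin.snoc_castSucc, Fin.append_left]
  · rw [Fin.append_right]
    refine Fin.lastCases ?_ (fun c => ?_) b
    · have h1 : (Fin.natAdd 2 (Fin.last k) : Fin (2 + (k + 1))) = Fin.last (2 + k) := rfl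
      rw [h1, Fin.snoc_last, Fin.snoc_last]
    · have h1 : (Fin.natAdd 2 (Fin.castSucc c) : Fin (2 + (k + 1))) =
          Fin.castSucc (Fin.natAdd 2 c) := rfl
      rw [h1, Fin.snoc_castSucc, Fin.snoc_castSucc, Fin.append_right]

lemma update_ext {k : ℕ} (x : E (2 + k)) (z : ℝ) (j : Fin k) :
    WithLp.toLp 2 (Function.update (ext x z).ofLp (Fin.natAdd 2 j.castSucc)
      (-(ext x z (Fin.natAdd 2 j.castSucc)))) =
    ext (WithLp.toLp 2 (Function.update x.ofLp (Fin.natAdd 2 j) (-(x (Fin.natAdd 2 j))))) z := by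
  have h1 : (Fin.natAdd 2 (Fin.castSucc j) : Fin (2 + (k + 1))) =
      Fin.castSucc (Fin.natAdd 2 j) := rfl
  rw [h1]
  ext i
  refine Fin.lastCases ?_ (fun c => ?_) i
  · refine Eq.trans ?_ (ext_last _ _).symm
    have h2 : Fin.last (2 + k) ≠ Fin.castSucc (Fin.natAdd 2 j) :=
      (Fin.castSucc_lt_last _).ne'
    show Function.update (ext x z).ofLp _ _ _ = z
    rw [Function.update_of_ne h2]
    exact ext_last x z
  · refine Eq.trans ?_ (ext_castSucc _ _ _).symm
    show Function.update (ext x z).ofLp _ _ _ = Function.update x.ofLp _ _ _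
    by_cases hc : c = Fin.natAdd 2 j
    · subst hc
      rw [Function.update_self, Function.update_self]
      rw [ext_castSucc]
    · rw [Function.update_of_ne hc, Function.update_of_ne (by
        intro h
        exact hc (Fin.castSucc_injective _ h))]
      exact ext_castSucc x z c

lemma Good.slice {k : ℕ} {K : Set (E (2 + (k + 1)))} (h : Good (k + 1) K) (z : ℝ) :
    Good k (slice K z) := by
  refine ⟨slice_convex h.conv z, slice_compact h.comp z, ?_, ?_⟩
  · intro x hx j
    have h1 := h.refl (ext x z) hx j.castSucc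
    rw [update_ext] at h1
    exact h1
  · intro y
    have h1 := h.cent (Fin.snoc (α := fun _ => ℝ) y z)
    have h2 : {x : E 2 | WithLp.toLp 2 (Fin.append x.ofLp y) ∈ SC.slice K z} =
        {x : E 2 | WithLp.toLp 2 (Fin.append x.ofLp (Fin.snoc (α := fun _ => ℝ) y z)) ∈ K} := by
      ext x
      show WithLp.toLp 2 (Fin.snoc (α := fun _ => ℝ) (Fin.append x.ofLp y) z) ∈ K ↔
        WithLp.toLp 2 (Fin.append x.ofLp (Fin.snoc (α := fun _ => ℝ) y z)) ∈ K
      rw [append_snoc']
    rw [h2]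
    exact h1

/-- The mirror in the last coordinate. -/
lemma Good.mirror {k : ℕ} {K : Set (E (2 + (k + 1)))} (h : Good (k + 1) K) {x : E (2 + k)} {z : ℝ}
    (hx : ext x z ∈ K) : ext x (-z) ∈ K := by
  have h1 := h.refl (ext x z) hx (Fin.last k)
  have h2 : WithLp.toLp 2 (Function.update (ext x z).ofLp (Fin.natAdd 2 (Fin.last k))
      (-(ext x z (Fin.natAdd 2 (Fin.last k))))) = ext x (-z) := by
    have h3 : (Fin.natAdd 2 (Fin.last k) : Fin (2 + (k + 1))) = Fin.last (2 + k) := rfl
    rw [h3]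
    ext i
    refine Fin.lastCases ?_ (fun c => ?_) i
    · refine Eq.trans ?_ (ext_last _ _).symm
      show Function.update (ext x z).ofLp _ _ _ = -z
      rw [Function.update_self, ext_last]
    · refine Eq.trans ?_ (ext_castSucc _ _ _).symm
      show Function.update (ext x z).ofLp _ _ _ = x c
      rw [Function.update_of_ne (Fin.castSucc_lt_last _).ne]
      exact ext_castSucc x z c
  rwa [h2] at h1

lemma vol_toLp {n : ℕ} (K : Set (E n)) (hK : MeasurableSet K) :
    volume {f : Fin n → ℝ | WithLp.toLp 2 f ∈ K} = volume K := by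
  have h1 := (EuclideanSpace.volume_preserving_symm_measurableEquiv_toLp (Fin n)).symm
  exact h1.measure_preimage hK.nullMeasurableSet

/-- Volume by slices. -/
lemma vol_slice_aux {n : ℕ} (K : Set (E (n + 1))) (hK : MeasurableSet K) (z : ℝ) :
    volume (Prod.mk z ⁻¹' ((MeasurableEquiv.piFinSuccAbove (fun _ : Fin (n + 1) => ℝ)
      (Fin.last n)).symm ⁻¹' {f : Fin (n + 1) → ℝ | WithLp.toLp 2 f ∈ K})) =
    volume (slice K z) := by
  have hz : MeasurableSet (slice K z) := (cont_ext z).measurable hK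
  rw [← vol_toLp _ hz]
  congr 1
  ext f
  have h3 : (MeasurableEquiv.piFinSuccAbove (fun _ : Fin (n + 1) => ℝ) (Fin.last n)).symm (z, f) =
      Fin.snoc (α := fun _ => ℝ) f z := by
    simp [MeasurableEquiv.piFinSuccAbove, Fin.insertNthEquiv, Fin.insertNth_last']
  show WithLp.toLp 2 ((MeasurableEquiv.piFinSuccAbove (fun _ : Fin (n + 1) => ℝ)
    (Fin.last n)).symm (z, f)) ∈ K ↔ WithLp.toLp 2 (Fin.snoc (α := fun _ => ℝ) f z) ∈ K
  rw [h3]

/-- Volume by slices. -/
lemma vol_slice {n : ℕ} (K : Set (E (n + 1))) (hK : MeasurableSet K) :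
    volume K = ∫⁻ z, volume (slice K z) := by
  rw [← vol_toLp K hK]
  have h1 := (volume_preserving_piFinSuccAbove (fun _ : Fin (n + 1) => ℝ) (Fin.last n)).symm
  have hm : MeasurableSet {f : Fin (n + 1) → ℝ | WithLp.toLp 2 f ∈ K} :=
    (MeasurableEquiv.toLp 2 (Fin (n + 1) → ℝ)).measurable hK
  have h2 := h1.measure_preimage hm.nullMeasurableSet
  rw [← h2, Measure.volume_eq_prod, Measure.prod_apply
    ((MeasurableEquiv.piFinSuccAbove (fun _ : Fin (n + 1) => ℝ) (Fin.last n)).symm.measurable hm)]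
  apply lintegral_congr
  intro z
  exact vol_slice_aux K hK z

lemma meas_slice {n : ℕ} (K : Set (E (n + 1))) (hK : MeasurableSet K) :
    Measurable fun z => volume (slice K z) := by
  have hm : MeasurableSet {f : Fin (n + 1) → ℝ | WithLp.toLp 2 f ∈ K} :=
    (MeasurableEquiv.toLp 2 (Fin (n + 1) → ℝ)).measurable hK
  have h1 := measurable_measure_prodMk_left (ν := (volume : Measure (Fin n → ℝ)))
    ((MeasurableEquiv.piFinSuccAbove (fun _ : Fin (n + 1) => ℝ) (Fin.last n)).symm.measurable hm)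
  have h2 : (fun z => volume (slice K z)) = fun z => volume (Prod.mk z ⁻¹'
      ((MeasurableEquiv.piFinSuccAbove (fun _ : Fin (n + 1) => ℝ)
      (Fin.last n)).symm ⁻¹' {f : Fin (n + 1) → ℝ | WithLp.toLp 2 f ∈ K})) := by
    funext z
    exact (vol_slice_aux K hK z).symm
  rw [h2]
  exact h1

end Pool.Agent.Lib.MP_1dedaf_gt.SC
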