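import Pool.Agent.Lib.MP_1dedaf_gt.SC.Core

/-!
# MP_1dedaf_gt, SC: one mirror in space
-/

set_option autoImplicit false

open MeasureTheory Set Filter Topology
open scoped ENNReal NNReal

namespace Pool.Agent.Lib.MP_1dedaf_gt.SC

/-- A linear reflection of space is `z ↦ -z` in suitable coordinates. -/
theorem ref_form {R : E 3 → E 3}
    (hR : ∃ a u : E 3, inner ℝ u a = 2 ∧ ∀ x, R x = x - (inner ℝ u x : ℝ) • a) :
    ∃ P : E 3 ≃L[ℝ] E (2 + 1), ∀ x, P (R x) =
      WithLp.toLp 2 (Function.update (P x).ofLp (Fin.natAdd 2 (0 : Fin 1))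
        (-(P x (Fin.natAdd 2 (0 : Fin 1))))) := by
  obtain ⟨a, u, hua, hR⟩ := hR
  have hu : u ≠ 0 := by
    rintro rfl
    simp at hua
  have : Fact (Module.finrank ℝ (E 3) = 2 + 1) := ⟨by simp [E]⟩
  have hfin : Module.finrank ℝ (ℝ ∙ u)ᗮ = 2 := Submodule.finrank_orthogonal_span_singleton hu
  let b := Module.finBasisOfFinrankEq ℝ (ℝ ∙ u)ᗮ hfin
  let v : Fin 2 → E 3 := fun i => (b i : E 3)
  have hv : LinearIndependent ℝ v :=
    b.linearIndependent.map' (Submodule.subtype _) (Submodule.ker_subtype _)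
  have hvu : ∀ i, inner ℝ u (v i) = 0 := fun i =>
    Submodule.mem_orthogonal_singleton_iff_inner_right.mp (b i).2
  have ha : a ∉ Submodule.span ℝ (Set.range v) := by
    intro h
    have h1 : Submodule.span ℝ (Set.range v) ≤ (ℝ ∙ u)ᗮ := by
      rw [Submodule.span_le]
      rintro _ ⟨i, rfl⟩
      exact (b i).2
    have h2 := Submodule.mem_orthogonal_singleton_iff_inner_right.mp (h1 h)
    rw [hua] at h2
    norm_num at h2
  have hw : LinearIndependent ℝ (Fin.snoc (α := fun _ => E 3) v a : Fin (2 + 1) → E 3) :=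
    linearIndependent_finSnoc.mpr ⟨hv, ha⟩
  let B : Module.Basis (Fin (2 + 1)) ℝ (E 3) :=
    basisOfLinearIndependentOfCardEqFinrank hw (by simp [E])
  have hB : ∀ i, B i = (Fin.snoc (α := fun _ => E 3) v a : Fin (2 + 1) → E 3) i := fun i => by
    simp [B]
  have hBl : B (Fin.last 2) = a := by rw [hB, Fin.snoc_last]
  have hBc : ∀ i : Fin 2, B i.castSucc = v i := fun i => by rw [hB, Fin.snoc_castSucc]
  have hux : ∀ x : E 3, (inner ℝ u x : ℝ) = 2 * B.repr x (Fin.last 2) := by
    intro x
    conv_lhs => rw [← B.sum_repr x]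
    rw [inner_sum, Fin.sum_univ_castSucc]
    have h1 : ∀ i : Fin 2, (inner ℝ u (B.repr x i.castSucc • B i.castSucc) : ℝ) = 0 := by
      intro i
      rw [inner_smul_right, hBc, hvu, mul_zero]
    rw [Finset.sum_eq_zero (fun i _ => h1 i), zero_add, inner_smul_right, hBl, hua]
    ring
  refine ⟨B.equivFunL.trans (EuclideanSpace.equiv (Fin (2 + 1)) ℝ).symm, ?_⟩
  intro x
  have hP : ∀ (y : E 3) (i : Fin (2 + 1)),
      (B.equivFunL.trans (EuclideanSpace.equiv (Fin (2 + 1)) ℝ).symm) y i = B.repr y i := by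
    intro y i
    rfl
  ext i
  rw [hP, hR, map_sub, map_smul]
  show B.repr x i - (inner ℝ u x : ℝ) * B.repr a i =
    Function.update ((B.equivFunL.trans (EuclideanSpace.equiv (Fin (2 + 1)) ℝ).symm) x).ofLp
      (Fin.natAdd 2 (0 : Fin 1)) _ i
  have hra : B.repr a = Finsupp.single (Fin.last 2) 1 := by
    rw [← hBl, B.repr_self]
  rw [hra]
  have hlast : (Fin.natAdd 2 (0 : Fin 1) : Fin (2 + 1)) = Fin.last 2 := rfl
  rw [hlast]
  refine Fin.lastCases ?_ (fun j => ?_) i
  · rw [Function.update_self, hP, hux, Finsupp.single_eq_same]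
    ring
  · rw [Function.update_of_ne (Fin.castSucc_lt_last _).ne,
      Finsupp.single_eq_of_ne (Fin.castSucc_lt_last _).ne]
    show _ = B.repr x j.castSucc
    ring

/-- Origin-symmetric bodies with a mirror are of the class, after a linear map. -/
theorem good_of_symm {K : Set (E 3)} (hc : Convex ℝ K) (hk : IsCompact K)
    (hs : ∀ x ∈ K, -x ∈ K) {R : E 3 → E 3} (hR : ∀ x ∈ K, R x ∈ K) (P : E 3 ≃L[ℝ] E (2 + 1))
    (hP : ∀ x, P (R x) = WithLp.toLp 2 (Function.update (P x).ofLp (Fin.natAdd 2 (0 : Fin 1))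
        (-(P x (Fin.natAdd 2 (0 : Fin 1)))))) :
    Good 1 (P '' K) := by
  have hcomp : IsCompact (P '' K) := hk.image P.continuous
  have href : ∀ x ∈ P '' K, WithLp.toLp 2 (Function.update x.ofLp (Fin.natAdd 2 (0 : Fin 1))
      (-(x (Fin.natAdd 2 (0 : Fin 1))))) ∈ P '' K := by
    rintro _ ⟨y, hy, rfl⟩
    exact ⟨R y, hR y hy, hP y⟩
  refine ⟨?_, hcomp, ?_, ?_⟩
  · exact hc.linear_image P.toLinearEquiv.toLinearMap
  · intro x hx j
    have hj : j = 0 := Subsingleton.elim _ _
    subst hj
    exact href x hx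
  · intro y
    set S : Set (E 2) := {x : E 2 | WithLp.toLp 2 (Fin.append x.ofLp y) ∈ P '' K} with hS
    have hcont : Continuous fun x : E 2 =>
        (WithLp.toLp 2 (Fin.append x.ofLp y) : E (2 + 1)) := by
      apply (PiLp.continuous_toLp 2 _).comp
      apply continuous_pi
      intro i
      refine Fin.addCases (fun j => ?_) (fun j => ?_) i
      · simp only [Fin.append_left]
        exact (continuous_apply j).comp (PiLp.continuous_ofLp 2 _)
      · simp only [Fin.append_right]
        exact continuous_const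
    have hSm : MeasurableSet S := (hcomp.isClosed.preimage hcont).measurableSet
    have hSs : ∀ x ∈ S, -x ∈ S := by
      intro x hx
      obtain ⟨k, hk', hkx⟩ := hx
      have h1 : (WithLp.toLp 2 (Fin.append (-x).ofLp (-y)) : E (2 + 1)) ∈ P '' K := by
        refine ⟨-k, hs k hk', ?_⟩
        rw [map_neg, hkx]
        ext i
        refine Fin.addCases (fun j => ?_) (fun j => ?_) i
        · simp [Fin.append_left]
        · simp [Fin.append_right]
      have h2 := href _ h1
      show (WithLp.toLp 2 (Fin.append (-x).ofLp y) : E (2 + 1)) ∈ P '' K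
      convert h2 using 1
      ext i
      refine Fin.addCases (fun j => ?_) (fun j => ?_) i
      · have hne : (Fin.castAdd 1 j : Fin (2 + 1)) ≠ Fin.natAdd 2 (0 : Fin 1) := by
          intro h
          have := congrArg Fin.val h
          simp at this
          omega
        show Fin.append (-x).ofLp y (Fin.castAdd 1 j) =
          Function.update (WithLp.toLp 2 (Fin.append (-x).ofLp (-y)) : E (2 + 1)).ofLp
            (Fin.natAdd 2 (0 : Fin 1)) _ (Fin.castAdd 1 j)
        rw [Function.update_of_ne hne]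
        simp [Fin.append_left]
      · have hj : j = 0 := Subsingleton.elim _ _
        subst hj
        show Fin.append (-x).ofLp y (Fin.natAdd 2 0) =
          Function.update (WithLp.toLp 2 (Fin.append (-x).ofLp (-y)) : E (2 + 1)).ofLp
            (Fin.natAdd 2 (0 : Fin 1)) _ (Fin.natAdd 2 (0 : Fin 1))
        rw [Function.update_self]
        show Fin.append (-x).ofLp y (Fin.natAdd 2 0) = -(Fin.append (-x).ofLp (-y) (Fin.natAdd 2 0))
        rw [Fin.append_right, Fin.append_right]
        simp
    have h1 : ∫ x in S, x = ∫ x : E 2, S.indicator (fun x => x) x :=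
      (integral_indicator hSm).symm
    have h2 : ∫ x : E 2, S.indicator (fun x => x) (-x) = ∫ x : E 2, S.indicator (fun x => x) x :=
      integral_neg_eq_self (fun x : E 2 => S.indicator (fun x => x) x) volume
    have h3 : (fun x : E 2 => S.indicator (fun x => x) (-x)) =
        fun x => -(S.indicator (fun x => x) x) := by
      funext x
      by_cases hx : x ∈ S
      · rw [indicator_of_mem hx, indicator_of_mem (hSs x hx)]
      · have hx' : -x ∉ S := fun h => hx (by simpa using hSs _ h)
        rw [indicator_of_notMem hx, indicator_of_notMem hx', neg_zero]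
    rw [h3, integral_neg, ← h1] at h2
    have h4 : (2 : ℝ) • ∫ x in S, x = 0 := by
      rw [two_smul]
      nth_rewrite 1 [← h2]
      exact neg_add_cancel _
    exact (smul_eq_zero.mp h4).resolve_left two_ne_zero

end Pool.Agent.Lib.MP_1dedaf_gt.SC
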