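import Pool.Agent.Lib.MP_1dedaf_gt.SC.Lin
import Pool.Agent.Lib.MP_1dedaf_gt.SC.Ref
import Pool.Agent.Lib.MP_1dedaf_gt.SC.Base
import Pool.Agent.Lib.MP_1dedaf_gt.SC.Bdd

/-!
# MP_1dedaf_gt, SC: final form
-/

set_option autoImplicit false

open MeasureTheory Set Filter Topology
open scoped ENNReal NNReal

namespace Pool.Agent.Lib.MP_1dedaf_gt.SC

/-- The inequality in real numbers, in any linear position. -/
theorem main {k : ℕ} {t : ℝ} (ht0 : 0 < t) (ht1 : t < 1) {K C : Set (E (2 + k))}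
    (hK : IsCompact K) (hC : IsCompact C) (P : E (2 + k) ≃L[ℝ] E (2 + k))
    (hPK : Good k (P '' K)) (hPC : Good k (P '' C)) :
    (volume K).toReal ^ (1 - t) * (volume C).toReal ^ t ≤ (volume (logC t K C)).toReal := by
  have hs0 : 0 < 1 - t := by linarith
  have himg : ∀ {K : Set (E (2 + k))}, volume K ≠ 0 → volume (P '' K) ≠ 0 := by
    intro K hK h0
    apply hK
    rw [Measure.addHaar_image_continuousLinearEquiv] at h0
    rcases mul_eq_zero.1 h0 with h1 | h1
    · exfalso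
      have h2 : (P : E (2 + k) →L[ℝ] E (2 + k)).det ≠ 0 :=
        (P.toLinearEquiv.isUnit_det').ne_zero
      rw [ENNReal.ofReal_eq_zero] at h1
      exact h2 (abs_eq_zero.1 (le_antisymm h1 (abs_nonneg _)))
    · exact h1
  have hzero : ∀ {K : Set (E (2 + k))}, volume K ≠ 0 → Good k (P '' K) → (0 : E (2 + k)) ∈ K := by
    intro K hK hg
    have h1 := zero_mem k _ hg (himg hK)
    obtain ⟨x, hx, hx0⟩ := h1
    have h2 : x = 0 := by
      apply P.injective
      rw [hx0, map_zero]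
    rwa [h2] at hx
  by_cases h1 : volume K = 0
  · rw [h1, ENNReal.toReal_zero, Real.zero_rpow hs0.ne', zero_mul]
    exact ENNReal.toReal_nonneg
  by_cases h2 : volume C = 0
  · rw [h2, ENNReal.toReal_zero, Real.zero_rpow ht0.ne', mul_zero]
    exact ENNReal.toReal_nonneg
  have h0 := hzero h1 hPK
  have h0' := hzero h2 hPC
  have h3 := lin ht0 ht1 P hK hC h0 h0' (all_k base k t ht0 ht1 _ _ hPK hPC)
  have h4 : volume (logC t K C) ≠ ⊤ := (logC_bdd ht0 ht1 hK hC h0 h0').measure_lt_top.ne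
  have h5 := ENNReal.toReal_mono h4 h3
  rwa [ENNReal.toReal_mul, ← ENNReal.toReal_rpow, ← ENNReal.toReal_rpow] at h5

end Pool.Agent.Lib.MP_1dedaf_gt.SC
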