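import Pool.Agent.Lib.MP_1dedaf_gt.SC.Core

/-!
# MP_1dedaf_gt, SC: linear maps
-/

set_option autoImplicit false

open MeasureTheory Set Filter Topology
open scoped ENNReal NNReal

namespace Pool.Agent.Lib.MP_1dedaf_gt.SC

lemma supp_image {n : ℕ} (P : E n ≃L[ℝ] E n) (K : Set (E n)) (u : E n) :
    supp (P '' K) (ContinuousLinearMap.adjoint (P.symm : E n →L[ℝ] E n) u) = supp K u := by
  unfold supp
  rw [image_image]
  congr 1
  apply image_congr
  intro y _
  rw [ContinuousLinearMap.adjoint_inner_right]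
  simp

/-- The inequality is linearly invariant. -/
theorem lin {n : ℕ} {t : ℝ} (ht0 : 0 < t) (ht1 : t < 1) (P : E n ≃L[ℝ] E n) {K C : Set (E n)}
    (hK : IsCompact K) (hC : IsCompact C) (h0 : (0 : E n) ∈ K) (h0' : (0 : E n) ∈ C)
    (h : volume (P '' K) ^ (1 - t) * volume (P '' C) ^ t ≤ volume (logC t (P '' K) (P '' C))) :
    volume K ^ (1 - t) * volume C ^ t ≤ volume (logC t K C) := by
  have hs0 : 0 < 1 - t := by linarith
  have hsub : logC t (P '' K) (P '' C) ⊆ P '' (logC t K C) := by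
    intro y hy
    refine ⟨P.symm y, ?_, P.apply_symm_apply y⟩
    intro u _
    have h1 := logC_all (hK.image P.continuous) (hC.image P.continuous) ⟨0, h0, map_zero P⟩
      ⟨0, h0', map_zero P⟩ hy (ContinuousLinearMap.adjoint (P.symm : E n →L[ℝ] E n) u)
    rw [supp_image, supp_image, ContinuousLinearMap.adjoint_inner_right] at h1
    exact h1
  have h2 := h.trans (measure_mono hsub)
  obtain ⟨D, hD0, hDt, hDv⟩ : ∃ D : ℝ≥0∞, D ≠ 0 ∧ D ≠ ∞ ∧ ∀ S : Set (E n),
      volume (P '' S) = D * volume S := by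
    refine ⟨ENNReal.ofReal |(P : E n →L[ℝ] E n).det|, ?_, ENNReal.ofReal_ne_top, fun S =>
      Measure.addHaar_image_continuousLinearEquiv _ P S⟩
    have h3 : (P : E n →L[ℝ] E n).det ≠ 0 := (P.toLinearEquiv.isUnit_det').ne_zero
    intro h4
    rw [ENNReal.ofReal_eq_zero] at h4
    exact h3 (abs_eq_zero.1 (le_antisymm h4 (abs_nonneg _)))
  rw [hDv, hDv, hDv] at h2
  rw [ENNReal.mul_rpow_of_nonneg _ _ hs0.le, ENNReal.mul_rpow_of_nonneg _ _ ht0.le] at h2
  have h4 : D ^ (1 - t) * D ^ t = D := by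
    rw [← ENNReal.rpow_add _ _ hD0 hDt]
    simp
  have h5 : D ^ (1 - t) * volume K ^ (1 - t) * (D ^ t * volume C ^ t) =
      D * (volume K ^ (1 - t) * volume C ^ t) := by
    calc D ^ (1 - t) * volume K ^ (1 - t) * (D ^ t * volume C ^ t)
        = (D ^ (1 - t) * D ^ t) * (volume K ^ (1 - t) * volume C ^ t) := by ring
      _ = _ := by rw [h4]
  rw [h5] at h2
  exact (ENNReal.mul_le_mul_iff_right hD0 hDt).1 h2

end Pool.Agent.Lib.MP_1dedaf_gt.SC
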