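import Mathlib

/-!
# MP_1dedaf_gt, SC: one-dimensional Prékopa–Leindler inequality with weight `t`
-/

set_option autoImplicit false

open MeasureTheory Set Filter Topology
open scoped ENNReal NNReal

namespace Pool.Agent.Lib.MP_1dedaf_gt.SC

lemma image_left (K : Set ℝ) (b : ℝ) :
    volume ((fun x => x + b) '' K) = volume K := by
  rw [image_add_right]
  exact measure_preimage_add_right _ _ _

/-- Brunn–Minkowski for compact sets. -/
lemma bm_compact {K L C : Set ℝ} (hK : IsCompact K) (hL : IsCompact L) (hK0 : K.Nonempty)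
    (hL0 : L.Nonempty) (h : ∀ x ∈ K, ∀ y ∈ L, x + y ∈ C) :
    volume K + volume L ≤ volume C := by
  obtain ⟨a, ha, hamax⟩ := hK.exists_isMaxOn hK0 continuous_id.continuousOn
  obtain ⟨b, hb, hbmin⟩ := hL.exists_isMinOn hL0 continuous_id.continuousOn
  have hamax' : ∀ x ∈ K, x ≤ a := fun x hx => hamax hx
  have hbmin' : ∀ x ∈ L, b ≤ x := fun x hx => hbmin hx
  have e1 : volume ((fun x => x + b) '' K) = volume K := image_left K b
  have e2 : volume ((fun x => x + a) '' L) = volume L := image_left L a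
  have hsub : ((fun x => x + b) '' K) ∪ ((fun x => x + a) '' L) ⊆ C := by
    rintro z (⟨x, hx, rfl⟩ | ⟨x, hx, rfl⟩)
    · exact h x hx b hb
    · have := h a ha x hx
      simpa [add_comm] using this
  have hd : volume (((fun x => x + b) '' K) ∩ ((fun x => x + a) '' L)) = 0 := by
    refine measure_mono_null (t := {a + b}) ?_ (by simp)
    rintro z ⟨⟨x, hx, rfl⟩, ⟨y, hy, hxy⟩⟩
    have h1 := hamax' x hx
    have h2 := hbmin' y hy
    simp only at hxy
    simp only [mem_singleton_iff]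
    linarith
  have hmeas : MeasurableSet ((fun x => x + a) '' L) :=
    (hL.image (continuous_id.add continuous_const)).measurableSet
  have h3 := measure_union_add_inter (μ := volume) ((fun x => x + b) '' K) hmeas
  rw [hd, add_zero, e1, e2] at h3
  rw [← h3]
  exact measure_mono hsub

/-- Brunn–Minkowski in dimension one. -/
lemma bm_one {A B C : Set ℝ} (hA : MeasurableSet A) (hB : MeasurableSet B) (hA0 : A.Nonempty)
    (hB0 : B.Nonempty) (h : ∀ x ∈ A, ∀ y ∈ B, x + y ∈ C) :
    volume A + volume B ≤ volume C := by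
  obtain ⟨a, ha⟩ := hA0
  obtain ⟨b, hb⟩ := hB0
  have hA' : volume A = ⨆ (K : Set ℝ) (_ : K ⊆ A ∧ IsCompact K), volume K := by
    rw [hA.measure_eq_iSup_isCompact]
    simp only [iSup_and]
  have hB' : volume B = ⨆ (K : Set ℝ) (_ : K ⊆ B ∧ IsCompact K), volume K := by
    rw [hB.measure_eq_iSup_isCompact]
    simp only [iSup_and]
  rw [hA', hB']
  refine ENNReal.biSup_add_biSup_le' ⟨∅, empty_subset _, isCompact_empty⟩
    ⟨∅, empty_subset _, isCompact_empty⟩ ?_
  rintro K ⟨hKA, hK⟩ L ⟨hLB, hL⟩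
  have h1 := bm_compact (K := insert a K) (L := insert b L) (C := C) (hK.insert a) (hL.insert b)
    (insert_nonempty _ _) (insert_nonempty _ _) (fun x hx y hy =>
      h x (insert_subset ha hKA hx) y (insert_subset hb hLB hy))
  refine le_trans ?_ h1
  gcongr <;> exact subset_insert _ _

lemma vol_scale (c : ℝ) (hc : 0 < c) (A : Set ℝ) :
    volume ((fun x => c⁻¹ * x) ⁻¹' A) = ENNReal.ofReal c * volume A := by
  rw [Real.volume_preimage_mul_left (inv_ne_zero hc.ne')]
  rw [inv_inv, abs_of_pos hc]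

/-- Brunn–Minkowski in dimension one with weights. -/
lemma bm_t {t : ℝ} (ht0 : 0 < t) (ht1 : t < 1) {A B C : Set ℝ} (hA : MeasurableSet A)
    (hB : MeasurableSet B) (hA0 : A.Nonempty) (hB0 : B.Nonempty)
    (h : ∀ x ∈ A, ∀ y ∈ B, (1 - t) * x + t * y ∈ C) :
    ENNReal.ofReal (1 - t) * volume A + ENNReal.ofReal t * volume B ≤ volume C := by
  have hs0 : 0 < 1 - t := by linarith
  rw [← vol_scale _ hs0 A, ← vol_scale _ ht0 B]
  obtain ⟨a, ha⟩ := hA0
  obtain ⟨b, hb⟩ := hB0
  apply bm_one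
  · exact hA.preimage (measurable_const_mul _)
  · exact hB.preimage (measurable_const_mul _)
  · refine ⟨(1 - t) * a, ?_⟩
    simp only [mem_preimage]
    rwa [← mul_assoc, inv_mul_cancel₀ hs0.ne', one_mul]
  · refine ⟨t * b, ?_⟩
    simp only [mem_preimage]
    rwa [← mul_assoc, inv_mul_cancel₀ ht0.ne', one_mul]
  · intro x hx y hy
    simp only [mem_preimage] at hx hy
    have h1 := h _ hx _ hy
    rwa [← mul_assoc, mul_inv_cancel₀ hs0.ne', one_mul, ← mul_assoc, mul_inv_cancel₀ ht0.ne',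
      one_mul] at h1

/-- Weighted AM-GM in the extended nonnegative reals. -/
lemma amgm_t {t : ℝ} (ht0 : 0 < t) (ht1 : t < 1) (X Y : ℝ≥0∞) :
    X ^ (1 - t) * Y ^ t ≤ ENNReal.ofReal (1 - t) * X + ENNReal.ofReal t * Y := by
  have hs0 : 0 < 1 - t := by linarith
  rcases eq_or_ne X ∞ with rfl | hX
  · rw [ENNReal.mul_top (by simpa using hs0), top_add]
    exact le_top
  rcases eq_or_ne Y ∞ with rfl | hY
  · rw [ENNReal.mul_top (by simpa using ht0), add_top]
    exact le_top
  lift X to ℝ≥0 using hX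
  lift Y to ℝ≥0 using hY
  rw [← ENNReal.coe_rpow_of_nonneg _ hs0.le, ← ENNReal.coe_rpow_of_nonneg _ ht0.le]
  unfold ENNReal.ofReal
  rw [← ENNReal.coe_mul, ← ENNReal.coe_mul, ← ENNReal.coe_mul, ← ENNReal.coe_add,
    ENNReal.coe_le_coe]
  have h1 := NNReal.geom_mean_le_arith_mean2_weighted (Real.toNNReal (1 - t)) (Real.toNNReal t) X Y
    (by rw [← Real.toNNReal_add hs0.le ht0.le]; simp)
  rwa [Real.coe_toNNReal _ hs0.le, Real.coe_toNNReal _ ht0.le] at h1

/-- The normalised form for functions with values in `[0, 1]`. -/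
lemma pl_unit {t : ℝ} (ht0 : 0 < t) (ht1 : t < 1) {F G H : ℝ → ℝ} (hF : Measurable F)
    (hG : Measurable G) (hH : Measurable H)
    (hF0 : ∀ x, 0 ≤ F x) (hG0 : ∀ x, 0 ≤ G x) (hH0 : ∀ x, 0 ≤ H x)
    (hF1 : ∀ x, F x ≤ 1) (hG1 : ∀ x, G x ≤ 1)
    (hFs : ∀ s < 1, ∃ x, s < F x) (hGs : ∀ s < 1, ∃ x, s < G x)
    (h : ∀ s, 0 < s → s < 1 → ∀ x y, s < F x → s < G y → s < H ((1 - t) * x + t * y)) :
    ENNReal.ofReal (1 - t) * (∫⁻ x, ENNReal.ofReal (F x)) +
      ENNReal.ofReal t * (∫⁻ x, ENNReal.ofReal (G x)) ≤ ∫⁻ x, ENNReal.ofReal (H x) := by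
  rw [lintegral_eq_lintegral_meas_lt volume (Eventually.of_forall hF0) hF.aemeasurable,
    lintegral_eq_lintegral_meas_lt volume (Eventually.of_forall hG0) hG.aemeasurable,
    lintegral_eq_lintegral_meas_lt volume (Eventually.of_forall hH0) hH.aemeasurable]
  have hmF : Measurable fun s => volume {x | s < F x} :=
    Antitone.measurable fun s t hst => measure_mono fun x hx => lt_of_le_of_lt hst hx
  have hmG : Measurable fun s => volume {x | s < G x} :=
    Antitone.measurable fun s t hst => measure_mono fun x hx => lt_of_le_of_lt hst hx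
  rw [← lintegral_const_mul _ hmF, ← lintegral_const_mul _ hmG,
    ← lintegral_add_left (hmF.const_mul _)]
  apply setLIntegral_mono' measurableSet_Ioi
  intro s hs
  by_cases hs1 : s < 1
  · apply bm_t ht0 ht1 (measurableSet_lt measurable_const hF) (measurableSet_lt measurable_const hG)
      (hFs s hs1) (hGs s hs1)
    intro x hx y hy
    exact h s hs hs1 x y hx hy
  · push Not at hs1
    have e1 : {x | s < F x} = ∅ := by
      ext x
      simp only [mem_ofPred_eq, mem_empty_iff_false, iff_false, not_lt]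
      exact (hF1 x).trans hs1
    have e2 : {x | s < G x} = ∅ := by
      ext x
      simp only [mem_ofPred_eq, mem_empty_iff_false, iff_false, not_lt]
      exact (hG1 x).trans hs1
    simp [e1, e2]

/-- The case of bounded functions. -/
lemma pl_bdd {t : ℝ} (ht0 : 0 < t) (ht1 : t < 1) {f g h : ℝ → ℝ≥0∞} (hf : Measurable f)
    (hg : Measurable g) (hh : Measurable h)
    (hfg : ∀ x y, f x ^ (1 - t) * g y ^ t ≤ h ((1 - t) * x + t * y)) (hfb : (⨆ x, f x) ≠ ∞)
    (hgb : (⨆ x, g x) ≠ ∞) : (∫⁻ x, f x) ^ (1 - t) * (∫⁻ x, g x) ^ t ≤ ∫⁻ x, h x := by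
  have hs0' : 0 < 1 - t := by linarith
  rcases eq_or_ne (⨆ x, f x) 0 with hf0 | hf0
  · have : ∀ x, f x = 0 := fun x => le_antisymm (hf0 ▸ le_iSup f x) bot_le
    simp [this, ENNReal.zero_rpow_of_pos hs0']
  rcases eq_or_ne (⨆ x, g x) 0 with hg0 | hg0
  · have : ∀ x, g x = 0 := fun x => le_antisymm (hg0 ▸ le_iSup g x) bot_le
    simp [this, ENNReal.zero_rpow_of_pos ht0]
  set a := (⨆ x, f x).toReal with ha
  set b := (⨆ x, g x).toReal with hb
  have ha0 : 0 < a := ENNReal.toReal_pos hf0 hfb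
  have hb0 : 0 < b := ENNReal.toReal_pos hg0 hgb
  have hfx : ∀ x, f x ≠ ∞ := fun x => ne_top_of_le_ne_top hfb (le_iSup f x)
  have hgx : ∀ x, g x ≠ ∞ := fun x => ne_top_of_le_ne_top hgb (le_iSup g x)
  set s := a ^ (1 - t) * b ^ t with hs
  have hs0 : 0 < s := by positivity
  have hhx : ∀ x, min (h x) (ENNReal.ofReal s) ≠ ∞ := fun x =>
    ne_top_of_le_ne_top ENNReal.ofReal_ne_top (min_le_right _ _)
  have key := pl_unit ht0 ht1 (F := fun x => (f x).toReal / a) (G := fun x => (g x).toReal / b)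
    (H := fun x => (min (h x) (ENNReal.ofReal s)).toReal / s)
    (hf.ennreal_toReal.div_const a) (hg.ennreal_toReal.div_const b)
    ((hh.min measurable_const).ennreal_toReal.div_const s)
    (fun x => by positivity) (fun x => by positivity) (fun x => by positivity)
    (fun x => by
      rw [div_le_one ha0]
      exact ENNReal.toReal_mono hfb (le_iSup f x))
    (fun x => by
      rw [div_le_one hb0]
      exact ENNReal.toReal_mono hgb (le_iSup g x))
    (fun r hr => by
      rcases lt_or_ge r 0 with hr0 | hr0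
      · exact ⟨0, lt_of_lt_of_le hr0 (by positivity)⟩
      have h1 : ENNReal.ofReal (r * a) < ⨆ x, f x := by
        rw [ENNReal.ofReal_lt_iff_lt_toReal (by positivity) hfb, ← ha]
        nlinarith
      obtain ⟨x, hx⟩ := lt_iSup_iff.1 h1
      refine ⟨x, ?_⟩
      rw [ENNReal.ofReal_lt_iff_lt_toReal (by positivity) (hfx x)] at hx
      rw [lt_div_iff₀ ha0]
      exact hx)
    (fun r hr => by
      rcases lt_or_ge r 0 with hr0 | hr0
      · exact ⟨0, lt_of_lt_of_le hr0 (by positivity)⟩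
      have h1 : ENNReal.ofReal (r * b) < ⨆ x, g x := by
        rw [ENNReal.ofReal_lt_iff_lt_toReal (by positivity) hgb, ← hb]
        nlinarith
      obtain ⟨x, hx⟩ := lt_iSup_iff.1 h1
      refine ⟨x, ?_⟩
      rw [ENNReal.ofReal_lt_iff_lt_toReal (by positivity) (hgx x)] at hx
      rw [lt_div_iff₀ hb0]
      exact hx)
    (fun r hr0 hr1 x y hx hy => by
      rw [lt_div_iff₀ ha0] at hx
      rw [lt_div_iff₀ hb0] at hy
      rw [lt_div_iff₀ hs0, ← ENNReal.ofReal_lt_iff_lt_toReal (by positivity) (hhx _)]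
      apply lt_min
      · refine lt_of_lt_of_le ?_ (hfg x y)
        have h3 : (r * a) ^ (1 - t) * (r * b) ^ t < (f x).toReal ^ (1 - t) * (g y).toReal ^ t := by
          apply mul_lt_mul''
          · exact Real.rpow_lt_rpow (by positivity) hx hs0'
          · exact Real.rpow_lt_rpow (by positivity) hy ht0
          · positivity
          · positivity
        have h4 : (r * a) ^ (1 - t) * (r * b) ^ t = r * s := by
          rw [Real.mul_rpow hr0.le ha0.le, Real.mul_rpow hr0.le hb0.le, hs]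
          have : r ^ (1 - t) * r ^ t = r := by
            rw [← Real.rpow_add hr0]
            simp
          calc r ^ (1 - t) * a ^ (1 - t) * (r ^ t * b ^ t)
              = (r ^ (1 - t) * r ^ t) * (a ^ (1 - t) * b ^ t) := by ring
            _ = _ := by rw [this]
        rw [h4] at h3
        have h5 : f x ^ (1 - t) * g y ^ t =
            ENNReal.ofReal ((f x).toReal ^ (1 - t) * (g y).toReal ^ t) := by
          rw [ENNReal.ofReal_mul (by positivity), ENNReal.toReal_rpow, ENNReal.toReal_rpow,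
            ENNReal.ofReal_toReal (ENNReal.rpow_ne_top_of_nonneg hs0'.le (hfx x)),
            ENNReal.ofReal_toReal (ENNReal.rpow_ne_top_of_nonneg ht0.le (hgx y))]
        rw [h5]
        exact (ENNReal.ofReal_lt_ofReal_iff (lt_trans (by positivity) h3)).2 h3
      · rw [ENNReal.ofReal_lt_ofReal_iff hs0]
        nlinarith)
  have eF : ∫⁻ x, f x = ENNReal.ofReal a * ∫⁻ x, ENNReal.ofReal ((f x).toReal / a) := by
    rw [← lintegral_const_mul _ (hf.ennreal_toReal.div_const a).ennreal_ofReal]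
    apply lintegral_congr
    intro x
    rw [← ENNReal.ofReal_mul ha0.le, mul_div_cancel₀ _ ha0.ne', ENNReal.ofReal_toReal (hfx x)]
  have eG : ∫⁻ x, g x = ENNReal.ofReal b * ∫⁻ x, ENNReal.ofReal ((g x).toReal / b) := by
    rw [← lintegral_const_mul _ (hg.ennreal_toReal.div_const b).ennreal_ofReal]
    apply lintegral_congr
    intro x
    rw [← ENNReal.ofReal_mul hb0.le, mul_div_cancel₀ _ hb0.ne', ENNReal.ofReal_toReal (hgx x)]
  have eH : ENNReal.ofReal s * (∫⁻ x, ENNReal.ofReal ((min (h x) (ENNReal.ofReal s)).toReal / s)) ≤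
      ∫⁻ x, h x := by
    rw [← lintegral_const_mul _
      ((hh.min measurable_const).ennreal_toReal.div_const s).ennreal_ofReal]
    apply lintegral_mono
    intro x
    simp only
    rw [← ENNReal.ofReal_mul hs0.le, mul_div_cancel₀ _ hs0.ne', ENNReal.ofReal_toReal (hhx x)]
    exact min_le_left _ _
  have h5 := (amgm_t ht0 ht1 _ _).trans key
  have hss : ENNReal.ofReal s = ENNReal.ofReal a ^ (1 - t) * ENNReal.ofReal b ^ t := by
    rw [hs, ENNReal.ofReal_mul (by positivity), ENNReal.ofReal_rpow_of_pos ha0,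
      ENNReal.ofReal_rpow_of_pos hb0]
  calc (∫⁻ x, f x) ^ (1 - t) * (∫⁻ x, g x) ^ t
      = (ENNReal.ofReal s) * ((∫⁻ x, ENNReal.ofReal ((f x).toReal / a)) ^ (1 - t) *
          (∫⁻ x, ENNReal.ofReal ((g x).toReal / b)) ^ t) := by
        rw [eF, eG, ENNReal.mul_rpow_of_nonneg _ _ hs0'.le, ENNReal.mul_rpow_of_nonneg _ _ ht0.le,
          hss]
        ring
    _ ≤ (ENNReal.ofReal s) *
          (∫⁻ x, ENNReal.ofReal ((min (h x) (ENNReal.ofReal s)).toReal / s)) := by
        gcongr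
    _ ≤ ∫⁻ x, h x := eH

/-- Monotone approximation by truncation. -/
lemma trunc {f : ℝ → ℝ≥0∞} (hf : Measurable f) :
    ∫⁻ x, f x = ⨆ n : ℕ, ∫⁻ x, min (f x) n := by
  rw [← lintegral_iSup (fun n => hf.min measurable_const)]
  · apply lintegral_congr
    intro x
    rw [← inf_iSup_eq]
    rw [ENNReal.iSup_natCast]
    simp
  · intro m n hmn x
    simp only
    gcongr

lemma iSup_rpow' {s : ℝ} (hs : 0 < s) (u : ℕ → ℝ≥0∞) : (⨆ n, u n) ^ s = ⨆ n, (u n) ^ s :=
  (ENNReal.orderIsoRpow s hs).map_iSup u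

/-- **Prékopa–Leindler** in dimension one, weight `t`. -/
theorem pl_t {t : ℝ} (ht0 : 0 < t) (ht1 : t < 1) {f g h : ℝ → ℝ≥0∞} (hf : Measurable f)
    (hg : Measurable g) (hh : Measurable h)
    (hfg : ∀ x y, f x ^ (1 - t) * g y ^ t ≤ h ((1 - t) * x + t * y)) :
    (∫⁻ x, f x) ^ (1 - t) * (∫⁻ x, g x) ^ t ≤ ∫⁻ x, h x := by
  have hs0' : 0 < 1 - t := by linarith
  rw [trunc hf, trunc hg, iSup_rpow' hs0', iSup_rpow' ht0, ENNReal.iSup_mul]
  apply iSup_le
  intro m
  rw [ENNReal.mul_iSup]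
  apply iSup_le
  intro n
  apply pl_bdd ht0 ht1 (hf.min measurable_const) (hg.min measurable_const) hh
  · intro x y
    refine le_trans ?_ (hfg x y)
    gcongr
    · exact min_le_left _ _
    · exact min_le_left _ _
  · exact ne_top_of_le_ne_top (ENNReal.natCast_ne_top m) (iSup_le fun x => min_le_right _ _)
  · exact ne_top_of_le_ne_top (ENNReal.natCast_ne_top n) (iSup_le fun x => min_le_right _ _)

/-- Substitution `z = exp a`. -/
lemma lint_exp {f : ℝ → ℝ≥0∞} :
    ∫⁻ z in Ioi (0 : ℝ), f z = ∫⁻ a : ℝ, ENNReal.ofReal (Real.exp a) * f (Real.exp a) := by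
  have h1 := lintegral_image_eq_lintegral_abs_deriv_mul (s := (univ : Set ℝ)) (f := Real.exp)
    (f' := Real.exp) MeasurableSet.univ (fun x _ => (Real.hasDerivAt_exp x).hasDerivWithinAt)
    (Real.exp_injective.injOn) f
  rw [image_univ, Real.range_exp, Measure.restrict_univ] at h1
  rw [h1]
  apply lintegral_congr
  intro a
  rw [abs_of_pos (Real.exp_pos a)]

/-- **Multiplicative Prékopa–Leindler** on the half line. -/
theorem pl_mul {t : ℝ} (ht0 : 0 < t) (ht1 : t < 1) {f g h : ℝ → ℝ≥0∞} (hf : Measurable f)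
    (hg : Measurable g) (hh : Measurable h)
    (hfg : ∀ x y, 0 < x → 0 < y → f x ^ (1 - t) * g y ^ t ≤ h (x ^ (1 - t) * y ^ t)) :
    (∫⁻ x in Ioi (0 : ℝ), f x) ^ (1 - t) * (∫⁻ x in Ioi (0 : ℝ), g x) ^ t ≤
      ∫⁻ x in Ioi (0 : ℝ), h x := by
  have hs0' : 0 < 1 - t := by linarith
  rw [lint_exp, lint_exp, lint_exp]
  have hme : Measurable fun a : ℝ => ENNReal.ofReal (Real.exp a) :=
    Real.measurable_exp.ennreal_ofReal
  apply pl_t ht0 ht1 (hme.mul (hf.comp Real.measurable_exp)) (hme.mul (hg.comp Real.measurable_exp))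
    (hme.mul (hh.comp Real.measurable_exp))
  intro a b
  have e1 : Real.exp ((1 - t) * a + t * b) = Real.exp a ^ (1 - t) * Real.exp b ^ t := by
    rw [← Real.exp_mul, ← Real.exp_mul, ← Real.exp_add]
    ring_nf
  have h1 := hfg (Real.exp a) (Real.exp b) (Real.exp_pos a) (Real.exp_pos b)
  simp only [Pi.mul_apply, Function.comp_apply]
  rw [ENNReal.mul_rpow_of_nonneg _ _ hs0'.le, ENNReal.mul_rpow_of_nonneg _ _ ht0.le, e1,
    ENNReal.ofReal_mul (by positivity), ← ENNReal.ofReal_rpow_of_pos (Real.exp_pos a),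
    ← ENNReal.ofReal_rpow_of_pos (Real.exp_pos b)]
  calc ENNReal.ofReal (Real.exp a) ^ (1 - t) * f (Real.exp a) ^ (1 - t) *
        (ENNReal.ofReal (Real.exp b) ^ t * g (Real.exp b) ^ t)
      = (ENNReal.ofReal (Real.exp a) ^ (1 - t) * ENNReal.ofReal (Real.exp b) ^ t) *
        (f (Real.exp a) ^ (1 - t) * g (Real.exp b) ^ t) := by ring
    _ ≤ _ := by gcongr

end Pool.Agent.Lib.MP_1dedaf_gt.SC
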